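import Mathlib
import Pool.Agent.Helper75.GS.Defs
import Pool.Agent.Helper75.GS.P_final

set_option autoImplicit false

namespace Pool.Agent.Results.MP_54b1e5_al.LiftableSummands

/-- Let `I` have cardinality `ℵ₁` and let `G` be the group of the functions `I → ℤ` modulo those
with countable support. If `G = A ⊕ B`, `A ≠ 0`, and the projection of `G` onto `A` along `B` is
induced by an endomorphism `φ` of `ℤ ^ I`, then `A` is isomorphic to `G`. -/
theorem result (I : Type) (hI : Cardinal.mk I = Cardinal.aleph 1)
    (A B : AddSubgroup ((I → ℤ) ⧸ AddSubgroup.closure {f : I → ℤ | (Function.support f).Countable}))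
    (hAB : IsCompl A B) (hA : A ≠ ⊥) (φ : (I → ℤ) →+ (I → ℤ))
    (hφ : ∀ f : I → ℤ, (QuotientAddGroup.mk (φ f) : (I → ℤ) ⧸
        AddSubgroup.closure {f : I → ℤ | (Function.support f).Countable}) ∈ A ∧
      (QuotientAddGroup.mk (f - φ f) : (I → ℤ) ⧸
        AddSubgroup.closure {f : I → ℤ | (Function.support f).Countable}) ∈ B) :
    Nonempty (A ≃+ ((I → ℤ) ⧸
      AddSubgroup.closure {f : I → ℤ | (Function.support f).Countable})) :=
  Pool.Agent.Helper75.GS.final I hI A B hAB hA φ hφ

end Pool.Agent.Results.MP_54b1e5_al.LiftableSummands
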